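import Mathlib
import Pool.Agent.TH344.BF.Main
import Pool.Agent.W307.RT.Tors

/-!
# The tails of the distribution of the ranks of the curves with torsion group `Z/2 x Z/6`

All elliptic curves over `ℚ` whose group of rational points has a subgroup isomorphic to
`Z/2 x Z/6` (by Mazur's theorem these are exactly those with torsion group `Z/2 x Z/6`), ordered by
height. There is one set of curves of density zero such that over all the other curves all the
moments of the orders of the 2-Selmer groups are bounded. So the upper density of the curves of rank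
at least `r` decays faster than any exponential `A ^ (-r)`.
-/

namespace Pool.Agent.Results.MP_9e6228_nt.TorsionTwoSixTails

open Finset Filter Topology

/-- the curve `y² = x³ + A x + B` over `ℚ` -/
def E (A B : ℤ) : WeierstrassCurve ℚ := ⟨0, 0, 0, (A : ℚ), (B : ℚ)⟩

/-- The pairs `(A, B)` of integers such that `4 A³ + 27 B² ≠ 0`, there is no prime `p` with
`p⁴ ∣ A` and `p⁶ ∣ B`, `Z/2 x Z/6` embeds in the group of the rational points of
`y² = x³ + A x + B`, and the height `max (4 |A|³) (27 B²)` is at most `H`. Every elliptic curve over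
`ℚ` with torsion group `Z/2 x Z/6` is isomorphic to `E A B` for exactly one pair with the first three
properties. -/
def Fam (H : ℕ) : Set (ℤ × ℤ) :=
  {c : ℤ × ℤ | 4 * c.1 ^ 3 + 27 * c.2 ^ 2 ≠ 0 ∧
    (∀ p : ℕ, p.Prime → ¬ ((p : ℤ) ^ 4 ∣ c.1 ∧ (p : ℤ) ^ 6 ∣ c.2)) ∧
    (∃ f : ZMod 2 × ZMod 6 →+ (E c.1 c.2).toAffine.Point, Function.Injective f) ∧
    4 * |c.1| ^ 3 ≤ H ∧ 27 * c.2 ^ 2 ≤ H}

/-- the Mordell-Weil rank -/
noncomputable def rank (c : ℤ × ℤ) : ℕ := Module.finrank ℤ (E c.1 c.2).toAffine.Point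

/-- The local condition at a completion `K` of `ℚ`: there is a point `(x, y)`, `y ≠ 0`, of
`y² = x³ + A x + B` over `K` such that `(x - e) * d e` is a square for all the integer roots `e` of
`x³ + A x + B`. (Every class of `E(K) / 2 E(K)` contains a point with `y ≠ 0`.) -/
def Local (K : Type) [Field K] (A B : ℤ) (d : ℤ → ℤ) : Prop :=
  ∃ x y : K, y ≠ 0 ∧ y ^ 2 = x ^ 3 + A * x + B ∧
    ∀ e : ℤ, e ^ 3 + A * e + B = 0 → IsSquare ((x - e) * d e)

/-- The 2-Selmer group of `y² = x³ + A x + B`, a curve with three integer roots. As `E[2]` is the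
group of the families of signs with product one indexed by the roots, an element of the 2-Selmer
group is a family of classes of nonzero rational numbers modulo squares indexed by the roots `e`,
given by squarefree integers `d e` (`d e = 1` if `e` is not a root), which over `ℝ` and over `ℚ_[p]`
for all primes `p` is the family of the classes of `x - e` for a point of the curve. -/
def Sel2 (A B : ℤ) : Set (ℤ → ℤ) :=
  {d | (∀ e, Squarefree (d e)) ∧ (∀ e : ℤ, e ^ 3 + A * e + B ≠ 0 → d e = 1) ∧ Local ℝ A B d ∧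
    ∀ (p : ℕ) [Fact p.Prime], Local ℚ_[p] A B d}

/-- the proportion of the curves of `S` among the curves of height at most `H` -/
noncomputable def proportion (S : Set (ℤ × ℤ)) (H : ℕ) : ℝ :=
  ((Fam H ∩ S).ncard : ℝ) / (Fam H).ncard

/-- the upper density of a set of curves -/
noncomputable def upperDensity (S : Set (ℤ × ℤ)) : ℝ := limsup (proportion S) atTop

lemma Fam_eq (H : ℕ) : Fam H = (Pool.Agent.W307.RT.Cv 6 H : Set (ℤ × ℤ)) := by
  classical
  ext c
  have h : Pool.Agent.W307.RT.HasT 6 (Pool.Agent.W307.RT.Sh c.1 c.2) ↔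
    ∃ f : ZMod 2 × ZMod 6 →+ (E c.1 c.2).toAffine.Point, Function.Injective f :=
    Pool.Agent.W307.RT.tors_iff
  unfold Fam Pool.Agent.W307.RT.Cv
  rw [Set.mem_ofPred_eq, mem_coe, mem_filter, h, mem_product, mem_Icc, mem_Icc]
  constructor
  · rintro ⟨h1, h2, h3, h4, h5⟩
    refine ⟨⟨?_, ?_⟩, h1, h4, h5, h2, h3⟩
    · rw [← abs_le]
      have h0 := abs_nonneg c.1
      rcases eq_or_lt_of_le h0 with h6 | h6
      · rw [← h6]; positivity
      · have : 1 ≤ |c.1| := h6
        nlinarith [mul_nonneg h0 h0, mul_self_nonneg (|c.1| - 1)]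
    · rw [← abs_le]
      have h0 := abs_nonneg c.2
      rw [← sq_abs] at h5
      rcases eq_or_lt_of_le h0 with h6 | h6
      · rw [← h6]; positivity
      · have : 1 ≤ |c.2| := h6
        nlinarith
  · rintro ⟨-, h1, h4, h5, h2, h3⟩
    exact ⟨h1, h2, h3, h4, h5⟩

lemma Fam_ncard (H : ℕ) : (Fam H).ncard = (Pool.Agent.W307.RT.Cv 6 H).card := by
  rw [Fam_eq, Set.ncard_coe_finset]

lemma proportion_eq (S : Set (ℤ × ℤ)) :
    proportion S = Pool.Agent.TH344.GT.pr (Pool.Agent.W307.RT.Cv 6) S := by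
  funext H
  unfold proportion Pool.Agent.TH344.GT.pr
  rw [Fam_eq, Set.ncard_coe_finset]

lemma upperDensity_eq (S : Set (ℤ × ℤ)) :
    upperDensity S = Pool.Agent.TH344.GT.ud (Pool.Agent.W307.RT.Cv 6) S := by
  unfold upperDensity Pool.Agent.TH344.GT.ud
  rw [proportion_eq]

/-- **Theorem.** The number of the elliptic curves over `ℚ` with torsion group `Z/2 x Z/6` and height
at most `H` is finite and tends to infinity with `H`; their 2-Selmer groups are finite, of order at
least `2 ^ rank`. There is a set `Z` of curves of density zero such that for every `k` the sum of the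
`k`-th powers of the orders of the 2-Selmer groups of the curves of height at most `H` outside of `Z`
is at most `C_k` times the number of the curves of height at most `H`. For every real number `A`, the
upper density of the curves of rank at least `r` times `A ^ r` tends to zero for `r → ∞`, and so does
the upper density of the curves whose 2-Selmer group has at least `2 ^ r` elements times `A ^ r`. -/
theorem result :
    (∀ H : ℕ, (Fam H).Finite ∧ ∀ c ∈ Fam H, (Sel2 c.1 c.2).Finite ∧
      2 ^ rank c ≤ (Sel2 c.1 c.2).ncard) ∧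
    Tendsto (fun H : ℕ => (Fam H).ncard) atTop atTop ∧
    (∃ Z : Set (ℤ × ℤ), Tendsto (proportion Z) atTop (𝓝 0) ∧ ∀ k : ℕ, ∃ C : ℝ, ∀ H : ℕ,
      ∑ᶠ c ∈ Fam H \ Z, ((Sel2 c.1 c.2).ncard : ℝ) ^ k ≤ C * (Fam H).ncard) ∧
    (∀ A : ℝ, Tendsto (fun r : ℕ => A ^ r * upperDensity {c | r ≤ rank c}) atTop (𝓝 0)) ∧
    ∀ A : ℝ, Tendsto (fun r : ℕ => A ^ r * upperDensity {c | 2 ^ r ≤ (Sel2 c.1 c.2).ncard}) atTop
      (𝓝 0) := by
  classical
  have hfin : ∀ H, ∀ c ∈ Pool.Agent.W307.RT.Cv 6 H, (Sel2 c.1 c.2).Finite ∧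
      2 ^ rank c ≤ (Sel2 c.1 c.2).ncard := by
    intro H c hc
    obtain ⟨h1, -, h2⟩ := Pool.Agent.TH344.BF.sel6 hc
    exact ⟨h1, h2⟩
  obtain ⟨Z, hZ1, hZ2⟩ := Pool.Agent.TH344.BF.excs
  refine ⟨fun H => ?_, ?_, ⟨Z, ?_, fun k => ?_⟩, fun A => ?_, fun A => ?_⟩
  · rw [Fam_eq]
    exact ⟨finite_toSet _, fun c hc => hfin H c (mem_coe.1 hc)⟩
  · simp only [Fam_ncard]
    exact Pool.Agent.W307.RT.tendsto_of_low Pool.Agent.W376.RTL.low6
  · rw [proportion_eq]
    exact Pool.Agent.TH344.GT.tendsto_of_eps _ hZ1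
  · obtain ⟨C, hC⟩ := hZ2 k
    refine ⟨C, fun H => ?_⟩
    have h1 : Fam H \ Z =
        (((Pool.Agent.W307.RT.Cv 6 H).filter (fun c => c ∉ Z) : Finset (ℤ × ℤ)) :
          Set (ℤ × ℤ)) := by
      rw [Fam_eq]
      ext c
      simp
    rw [h1, finsum_mem_coe_finset, Fam_ncard]
    exact hC H
  · simp only [upperDensity_eq]
    apply Pool.Agent.TH344.GT.tail _ Pool.Agent.TH344.BF.excs 1
    intro r H c hc hr
    rw [pow_one]
    exact (Nat.pow_le_pow_right (by norm_num) hr).trans (hfin H c hc).2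
  · simp only [upperDensity_eq]
    apply Pool.Agent.TH344.GT.tail _ Pool.Agent.TH344.BF.excs 1
    intro r H c hc hr
    rw [pow_one]
    exact hr

end Pool.Agent.Results.MP_9e6228_nt.TorsionTwoSixTails
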